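import Pool.Agent.H74.G.R_seed8.W564.SC.Defs3
import Pool.Agent.H74.G.R_seed8.W509.SC.ACM

/-!
# SC-DER: exponential bounds for the derivatives of the iterates
-/

open scoped Manifold ContDiff Topology
open Filter Set Metric

universe u

namespace Pool.Agent.W509.SC

open Pool.Agent.H718R2.G Pool.Agent.W564.SC

/-- `G` in the charts `χ₁`, `χ₂` near `y`: domain, derivative bounded by `a`, `L`-Lipschitz. -/
structure TT (n : ℕ) (N : Type u) [TopologicalSpace N] (a L ρ : ℝ)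
    (χ₁ χ₂ : OpenPartialHomeomorph N (V n)) (G : N → N) (y : N) : Prop where
  src : y ∈ χ₁.source
  dom : ∀ x ∈ ball (χ₁ y) ρ, x ∈ χ₁.target ∧ G (χ₁.symm x) ∈ χ₂.source
  diff : ∀ x ∈ ball (χ₁ y) ρ, DifferentiableAt ℝ (χ₂ ∘ G ∘ χ₁.symm) x
  bd : ∀ x ∈ ball (χ₁ y) ρ, ‖fderiv ℝ (χ₂ ∘ G ∘ χ₁.symm) x‖ ≤ a
  lip : ∀ x ∈ ball (χ₁ y) ρ, ∀ x' ∈ ball (χ₁ y) ρ,
    ‖fderiv ℝ (χ₂ ∘ G ∘ χ₁.symm) x - fderiv ℝ (χ₂ ∘ G ∘ χ₁.symm) x'‖ ≤ L * ‖x - x'‖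

section

variable {n : ℕ} {N : Type u} [TopologicalSpace N]
  {χ₁ χ₂ χ₃ : OpenPartialHomeomorph N (V n)} {G G₁ G₂ : N → N} {y : N}

theorem TT.mono {a L ρ a' L' ρ' : ℝ} (h : TT n N a L ρ χ₁ χ₂ G y) (ha : a ≤ a') (hL : L ≤ L')
    (hρ : ρ' ≤ ρ) : TT n N a' L' ρ' χ₁ χ₂ G y := by
  have hs : ball (χ₁ y) ρ' ⊆ ball (χ₁ y) ρ := ball_subset_ball hρ
  refine ⟨h.src, fun x hx => h.dom x (hs hx), fun x hx => h.diff x (hs hx),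
    fun x hx => (h.bd x (hs hx)).trans ha, fun x hx x' hx' => (h.lip x (hs hx) x' (hs hx')).trans ?_⟩
  exact mul_le_mul_of_nonneg_right hL (norm_nonneg _)

/-- mean value inequality -/
theorem TT.mv {a L ρ : ℝ} (h : TT n N a L ρ χ₁ χ₂ G y) (x x' : V n) (hx : x ∈ ball (χ₁ y) ρ)
    (hx' : x' ∈ ball (χ₁ y) ρ) :
    ‖(χ₂ ∘ G ∘ χ₁.symm) x - (χ₂ ∘ G ∘ χ₁.symm) x'‖ ≤ a * ‖x - x'‖ :=
  (convex_ball (χ₁ y) ρ).norm_image_sub_le_of_norm_fderiv_le (𝕜 := ℝ) h.diff h.bd hx' hx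

theorem TT.comp {a₁ L₁ ρ₁ a₂ L₂ ρ₂ ρ : ℝ} (h1 : TT n N a₁ L₁ ρ₁ χ₁ χ₂ G₁ y)
    (h2 : TT n N a₂ L₂ ρ₂ χ₂ χ₃ G₂ (G₁ y)) (ha1 : 0 < a₁) (ha2 : 0 ≤ a₂) (hL2 : 0 ≤ L₂)
    (hρ0 : 0 < ρ) (hρ : ρ ≤ ρ₁) (hρ2 : a₁ * ρ ≤ ρ₂) :
    TT n N (a₂ * a₁) (L₂ * a₁ ^ 2 + a₂ * L₁) ρ χ₁ χ₃ (G₂ ∘ G₁) y := by
  have hs : ball (χ₁ y) ρ ⊆ ball (χ₁ y) ρ₁ := ball_subset_ball hρ
  have hc : χ₁ y ∈ ball (χ₁ y) ρ := mem_ball_self hρ0
  have hval : (χ₂ ∘ G₁ ∘ χ₁.symm) (χ₁ y) = χ₂ (G₁ y) := by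
    simp only [Function.comp]
    rw [χ₁.left_inv h1.src]
  have hin : ∀ x ∈ ball (χ₁ y) ρ, (χ₂ ∘ G₁ ∘ χ₁.symm) x ∈ ball (χ₂ (G₁ y)) ρ₂ := by
    intro x hx
    have h3 := h1.mv x (χ₁ y) (hs hx) (hs hc)
    rw [hval] at h3
    rw [mem_ball_iff_norm] at hx ⊢
    refine lt_of_le_of_lt h3 (lt_of_lt_of_le ?_ hρ2)
    exact mul_lt_mul_of_pos_left hx ha1
  have hinv : ∀ x ∈ ball (χ₁ y) ρ,
      χ₂.symm ((χ₂ ∘ G₁ ∘ χ₁.symm) x) = G₁ (χ₁.symm x) := by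
    intro x hx
    exact χ₂.left_inv (h1.dom x (hs hx)).2
  have hev : ∀ x ∈ ball (χ₁ y) ρ, (χ₃ ∘ (G₂ ∘ G₁) ∘ χ₁.symm) =ᶠ[𝓝 x]
      (χ₃ ∘ G₂ ∘ χ₂.symm) ∘ (χ₂ ∘ G₁ ∘ χ₁.symm) := by
    intro x hx
    filter_upwards [isOpen_ball.mem_nhds hx] with x' hx'
    have h3 := hinv x' hx'
    simp only [Function.comp] at h3 ⊢
    rw [h3]
  have hfd : ∀ x ∈ ball (χ₁ y) ρ, HasFDerivAt (χ₃ ∘ (G₂ ∘ G₁) ∘ χ₁.symm)
      ((fderiv ℝ (χ₃ ∘ G₂ ∘ χ₂.symm) ((χ₂ ∘ G₁ ∘ χ₁.symm) x)).comp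
        (fderiv ℝ (χ₂ ∘ G₁ ∘ χ₁.symm) x)) x := by
    intro x hx
    refine HasFDerivAt.congr_of_eventuallyEq ?_ (hev x hx)
    exact (h2.diff _ (hin x hx)).hasFDerivAt.comp x (h1.diff x (hs hx)).hasFDerivAt
  refine ⟨h1.src, ?_, fun x hx => (hfd x hx).differentiableAt, ?_, ?_⟩
  · intro x hx
    refine ⟨(h1.dom x (hs hx)).1, ?_⟩
    have h3 := (h2.dom _ (hin x hx)).2
    rw [hinv x hx] at h3
    exact h3
  · intro x hx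
    rw [(hfd x hx).fderiv]
    refine (ContinuousLinearMap.opNorm_comp_le _ _).trans ?_
    exact mul_le_mul (h2.bd _ (hin x hx)) (h1.bd x (hs hx)) (norm_nonneg _) ha2
  · intro x hx x' hx'
    rw [(hfd x hx).fderiv, (hfd x' hx').fderiv]
    obtain ⟨A, hA⟩ : ∃ A, A = fderiv ℝ (χ₃ ∘ G₂ ∘ χ₂.symm) ((χ₂ ∘ G₁ ∘ χ₁.symm) x) := ⟨_, rfl⟩
    obtain ⟨A', hA'⟩ : ∃ A', A' = fderiv ℝ (χ₃ ∘ G₂ ∘ χ₂.symm) ((χ₂ ∘ G₁ ∘ χ₁.symm) x') := ⟨_, rfl⟩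
    obtain ⟨B, hB⟩ : ∃ B, B = fderiv ℝ (χ₂ ∘ G₁ ∘ χ₁.symm) x := ⟨_, rfl⟩
    obtain ⟨B', hB'⟩ : ∃ B', B' = fderiv ℝ (χ₂ ∘ G₁ ∘ χ₁.symm) x' := ⟨_, rfl⟩
    have e1 : ‖A - A'‖ ≤ L₂ * (a₁ * ‖x - x'‖) := by
      rw [hA, hA']
      refine (h2.lip _ (hin x hx) _ (hin x' hx')).trans ?_
      exact mul_le_mul_of_nonneg_left (h1.mv x x' (hs hx) (hs hx')) hL2
    have e2 : ‖B - B'‖ ≤ L₁ * ‖x - x'‖ := by
      rw [hB, hB']
      exact h1.lip x (hs hx) x' (hs hx')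
    have e3 : ‖A'‖ ≤ a₂ := by rw [hA']; exact h2.bd _ (hin x' hx')
    have e4 : ‖B‖ ≤ a₁ := by rw [hB]; exact h1.bd x (hs hx)
    rw [← hA, ← hA', ← hB, ← hB']
    have e5 : A.comp B - A'.comp B' = (A - A').comp B + A'.comp (B - B') := by
      ext v
      simp
    rw [e5]
    calc ‖(A - A').comp B + A'.comp (B - B')‖ ≤ ‖(A - A').comp B‖ + ‖A'.comp (B - B')‖ :=
          norm_add_le _ _
      _ ≤ ‖A - A'‖ * ‖B‖ + ‖A'‖ * ‖B - B'‖ :=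
          add_le_add (ContinuousLinearMap.opNorm_comp_le _ _)
            (ContinuousLinearMap.opNorm_comp_le _ _)
      _ ≤ L₂ * (a₁ * ‖x - x'‖) * a₁ + a₂ * (L₁ * ‖x - x'‖) := by
          refine add_le_add (mul_le_mul e1 e4 (norm_nonneg _) ?_)
            (mul_le_mul e3 e2 (norm_nonneg _) ha2)
          positivity
      _ = (L₂ * a₁ ^ 2 + a₂ * L₁) * ‖x - x'‖ := by ring

/-- common constants for a finite family -/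
theorem unif {ι : Type*} (s : Finset ι) (Φ : ι → ℝ → ℝ → Prop)
    (h : ∀ p ∈ s, ∃ K ρ : ℝ, 1 ≤ K ∧ 0 < ρ ∧ Φ p K ρ)
    (hmono : ∀ p K K' ρ ρ', Φ p K ρ → K ≤ K' → ρ' ≤ ρ → Φ p K' ρ') :
    ∃ K ρ : ℝ, 1 ≤ K ∧ 0 < ρ ∧ ∀ p ∈ s, Φ p K ρ := by
  classical
  induction s using Finset.induction_on with
  | empty => exact ⟨1, 1, le_refl _, one_pos, fun p hp => absurd hp (Finset.notMem_empty p)⟩
  | insert b s hb ih =>
    obtain ⟨K, ρ, hK, hρ, hs⟩ := ih fun p hp => h p (Finset.mem_insert_of_mem hp)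
    obtain ⟨K', ρ', hK', hρ', hb'⟩ := h b (Finset.mem_insert_self b s)
    refine ⟨max K K', min ρ ρ', le_max_of_le_left hK, lt_min hρ hρ', ?_⟩
    intro p hp
    rcases Finset.mem_insert.1 hp with rfl | hp
    · exact hmono _ _ _ _ _ hb' (le_max_right _ _) (min_le_right _ _)
    · exact hmono _ _ _ _ _ (hs p hp) (le_max_left _ _) (min_le_left _ _)

/-- the steps along an orbit -/
theorem chain (c : N → OpenPartialHomeomorph N (V n)) (t : Finset N)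
    (hcov : ∀ y, ∃ b ∈ t, y ∈ (c b).source ∧ ‖c b y‖ < 1 / 8) (G : N → N) (K ρ : ℝ) (hK : 1 ≤ K)
    (hst : ∀ b ∈ t, ∀ b' ∈ t, ∀ y ∈ (c b).source, ‖c b y‖ < 1 / 8 → G y ∈ (c b').source →
      ‖c b' (G y)‖ < 1 / 8 → TT n N K K ρ (c b) (c b') G y)
    (χ : OpenPartialHomeomorph N (V n)) (y : N) (k ρ₀ : ℝ) (hk : 1 ≤ k) (hρ₀ : 0 < ρ₀)
    (hρ₀ρ : ρ₀ ≤ ρ) (hbase : ∀ b ∈ t, y ∈ (c b).source → ‖c b y‖ < 1 / 8 →
      TT n N k k ρ₀ χ (c b) id y) :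
    ∀ l : ℕ, ∀ b ∈ t, G^[l] y ∈ (c b).source → ‖c b (G^[l] y)‖ < 1 / 8 →
      TT n N (k * K ^ l) (k ^ 2 * (2 * K ^ 2) ^ l) (ρ₀ / (k * K ^ l)) χ (c b) G^[l] y := by
  have hK0 : 0 < K := by linarith
  have hk0 : 0 < k := by linarith
  intro l
  induction l with
  | zero =>
    intro b hb h1 h2
    have h3 := hbase b hb h1 h2
    refine h3.mono ?_ ?_ ?_
    · simp
    · rw [pow_zero, mul_one]
      nlinarith
    · rw [pow_zero, mul_one]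
      exact div_le_self hρ₀.le hk
  | succ l ih =>
    intro b' hb' h1 h2
    obtain ⟨b, hb, h3, h4⟩ := hcov (G^[l] y)
    rw [Function.iterate_succ_apply'] at h1 h2
    have h5 := ih b hb h3 h4
    have h6 := hst b hb b' hb' (G^[l] y) h3 h4 h1 h2
    have hKl : 0 < K ^ l := by positivity
    have hd : 0 < k * K ^ l := by positivity
    have hd' : 0 < k * K ^ (l + 1) := by positivity
    have h7 := h5.comp h6 hd hK0.le hK0.le (ρ := ρ₀ / (k * K ^ (l + 1))) (by positivity) (by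
        refine div_le_div_of_nonneg_left hρ₀.le hd ?_
        rw [pow_succ]
        nlinarith) (by
        have e : k * K ^ l * (ρ₀ / (k * K ^ (l + 1))) = ρ₀ / K := by
          rw [pow_succ]
          field_simp
        rw [e]
        exact (div_le_self hρ₀.le hK).trans hρ₀ρ)
    rw [Function.iterate_succ']
    refine h7.mono ?_ ?_ le_rfl
    · apply le_of_eq
      ring
    · have e1 : K * (k * K ^ l) ^ 2 ≤ k ^ 2 * (2 * K ^ 2) ^ l * K ^ 2 := by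
        have e2 : (K ^ l) ^ 2 ≤ (2 * K ^ 2) ^ l := by
          rw [← pow_mul, mul_comm l 2, pow_mul]
          refine pow_le_pow_left₀ (by positivity) ?_ l
          nlinarith
        have e3 : K ≤ K ^ 2 := by nlinarith
        calc K * (k * K ^ l) ^ 2 = k ^ 2 * (K ^ l) ^ 2 * K := by ring
          _ ≤ k ^ 2 * (2 * K ^ 2) ^ l * K ^ 2 :=
              mul_le_mul (mul_le_mul_of_nonneg_left e2 (by positivity)) e3 hK0.le (by positivity)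
      have e4 : K * (k ^ 2 * (2 * K ^ 2) ^ l) ≤ k ^ 2 * (2 * K ^ 2) ^ l * K ^ 2 := by
        have e3 : K ≤ K ^ 2 := by nlinarith
        have e5 : 0 ≤ k ^ 2 * (2 * K ^ 2) ^ l := by positivity
        calc K * (k ^ 2 * (2 * K ^ 2) ^ l) = k ^ 2 * (2 * K ^ 2) ^ l * K := by ring
          _ ≤ _ := mul_le_mul_of_nonneg_left e3 e5
      calc _ ≤ k ^ 2 * (2 * K ^ 2) ^ l * K ^ 2 + k ^ 2 * (2 * K ^ 2) ^ l * K ^ 2 := add_le_add e1 e4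
        _ = k ^ 2 * (2 * K ^ 2) ^ (l + 1) := by ring

end

section

variable {n : ℕ} {N : Type u} [TopologicalSpace N] [ChartedSpace (V n) N] {r : ℕ∞}

theorem it_nat (F : DiffM n N r) (l : ℕ) : it F (l : ℤ) = F^[l] := by
  induction l with
  | zero =>
    funext y
    exact it_zero F y
  | succ l ih =>
    funext y
    rw [Nat.cast_succ, add_comm, it_add, it_one, ih, Function.iterate_succ_apply']

theorem it_neg (F : DiffM n N r) (l : ℕ) : it F (-(l : ℤ)) = F.symm^[l] := by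
  induction l with
  | zero =>
    funext y
    exact it_zero F y
  | succ l ih =>
    funext y
    rw [Nat.cast_succ, neg_add_rev, it_add, it_neg_one, ih, Function.iterate_succ_apply']

theorem tt_of_step [T2Space N] [CompactSpace N] [IsManifold (𝓡 n) ∞ N] (h : S_STEP.{u})
    (hr : 2 ≤ r) (G : DiffM n N r) (χ₁ χ₂ : OpenPartialHomeomorph N (V n)) (z₁ z₂ : N)
    (h₁ : GoodChart n N χ₁ z₁) (h₂ : GoodChart n N χ₂ z₂) :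
    ∃ K ρ : ℝ, 1 ≤ K ∧ 0 < ρ ∧ ∀ y ∈ χ₁.source, ‖χ₁ y‖ ≤ 1 / 2 → G y ∈ χ₂.source →
      ‖χ₂ (G y)‖ ≤ 1 / 2 → TT n N K K ρ χ₁ χ₂ G y := by
  obtain ⟨K, ρ, hK, hρ, -, hs⟩ := h n N r hr G χ₁ χ₂ z₁ z₂ h₁ h₂
  refine ⟨K, ρ, hK, hρ, ?_⟩
  intro y hy hy2 hGy hGy2
  obtain ⟨h3, h4⟩ := hs y hy hy2 hGy hGy2
  exact ⟨hy, fun x hx => ⟨(h3 x hx).1, (h3 x hx).2.1⟩, h4.diff, h4.bd, h4.lip⟩

/-- the numbers -/
theorem nums (K k ρ₀ : ℝ) (hK : 1 ≤ K) (hk : 1 ≤ k) (hρ : 0 < ρ₀) : ∃ m₀ : ℕ, ∀ m : ℕ, m₀ ≤ m →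
    ∀ l : ℕ, l ≤ 2 * m → k * (k * K ^ l) ≤ (8 * K ^ 4) ^ m ∧
      k * (k * K ^ l) ^ 2 + k * (k ^ 2 * (2 * K ^ 2) ^ l) ≤ (8 * K ^ 4) ^ m ∧
      (8 * K ^ 4)⁻¹ ^ m < ρ₀ / (k * K ^ l) := by
  obtain ⟨m₀, hm₀⟩ := exists_nat_gt (2 * k ^ 3 + k ^ 2 + k / ρ₀)
  refine ⟨m₀, ?_⟩
  intro m hm l hl
  have hK0 : 0 < K := by linarith
  have hk0 : 0 < k := by linarith
  have h2m : 2 * k ^ 3 + k ^ 2 + k / ρ₀ < 2 ^ m := by
    have h1 : (m₀ : ℝ) ≤ m := by exact_mod_cast hm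
    have h2 : (m : ℝ) < 2 ^ m := by exact_mod_cast Nat.lt_two_pow_self
    linarith
  have hk3 : 0 < k ^ 3 := by positivity
  have hk2 : 0 < k ^ 2 := by positivity
  have hkr : 0 < k / ρ₀ := by positivity
  have hpow : (8 * K ^ 4) ^ m = 2 ^ m * (4 ^ m * (K ^ (2 * m)) ^ 2) := by
    rw [mul_pow, ← pow_mul, ← pow_mul, show (8 : ℝ) = 2 * 4 by norm_num, mul_pow,
      show 2 * m * 2 = 4 * m by ring]
    ring
  have hKl : K ^ l ≤ K ^ (2 * m) := pow_le_pow_right₀ hK hl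
  have hKm1 : 1 ≤ K ^ (2 * m) := one_le_pow₀ hK
  have h4m : (1 : ℝ) ≤ 4 ^ m := one_le_pow₀ (by norm_num)
  have hKl0 : 0 < K ^ l := by positivity
  have hKsq : K ^ (2 * m) ≤ 4 ^ m * (K ^ (2 * m)) ^ 2 := by nlinarith
  have hA : K ^ l ≤ 4 ^ m * (K ^ (2 * m)) ^ 2 := hKl.trans hKsq
  have hB : (K ^ l) ^ 2 ≤ 4 ^ m * (K ^ (2 * m)) ^ 2 := by
    have h1 : (K ^ l) ^ 2 ≤ (K ^ (2 * m)) ^ 2 := pow_le_pow_left₀ hKl0.le hKl 2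
    nlinarith [sq_nonneg (K ^ (2 * m))]
  have hC : (2 * K ^ 2) ^ l ≤ 4 ^ m * (K ^ (2 * m)) ^ 2 := by
    have h1 : (2 * K ^ 2) ^ l ≤ (2 * K ^ 2) ^ (2 * m) := by
      refine pow_le_pow_right₀ ?_ hl
      nlinarith
    refine h1.trans (le_of_eq ?_)
    rw [pow_mul, ← pow_mul K (2 * m) 2, show 2 * m * 2 = 4 * m by ring, pow_mul K 4 m, ← mul_pow]
    congr 1
    ring
  have hT : 0 < 4 ^ m * (K ^ (2 * m)) ^ 2 := by positivity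
  refine ⟨?_, ?_, ?_⟩
  · rw [hpow]
    calc k * (k * K ^ l) = k ^ 2 * K ^ l := by ring
      _ ≤ 2 ^ m * (4 ^ m * (K ^ (2 * m)) ^ 2) :=
          mul_le_mul (by linarith) hA hKl0.le (by positivity)
  · rw [hpow]
    calc k * (k * K ^ l) ^ 2 + k * (k ^ 2 * (2 * K ^ 2) ^ l) =
        k ^ 3 * (K ^ l) ^ 2 + k ^ 3 * (2 * K ^ 2) ^ l := by ring
      _ ≤ k ^ 3 * (4 ^ m * (K ^ (2 * m)) ^ 2) + k ^ 3 * (4 ^ m * (K ^ (2 * m)) ^ 2) :=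
          add_le_add (mul_le_mul_of_nonneg_left hB hk3.le) (mul_le_mul_of_nonneg_left hC hk3.le)
      _ = (2 * k ^ 3) * (4 ^ m * (K ^ (2 * m)) ^ 2) := by ring
      _ ≤ 2 ^ m * (4 ^ m * (K ^ (2 * m)) ^ 2) :=
          mul_le_mul_of_nonneg_right (by linarith) hT.le
  · rw [inv_pow, hpow, lt_div_iff₀ (by positivity), inv_mul_lt_iff₀ (by positivity)]
    have h1 : k < ρ₀ * 2 ^ m := by
      have h2 : k / ρ₀ < 2 ^ m := by linarith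
      rw [div_lt_iff₀ hρ] at h2
      linarith
    calc k * K ^ l < (ρ₀ * 2 ^ m) * (4 ^ m * (K ^ (2 * m)) ^ 2) :=
          mul_lt_mul h1 hA hKl0 (by positivity)
      _ = 2 ^ m * (4 ^ m * (K ^ (2 * m)) ^ 2) * ρ₀ := by ring

end

theorem der (h : S_STEP.{u}) (h2 : S_GC.{u}) : S_DER.{u} := by
  intro n N _ _ _ _ _ r hr F
  classical
  choose c hc using fun z : N => h2 n N z
  -- a finite cover
  obtain ⟨t, ht⟩ := CompactSpace.elim_nhds_subcover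
    (fun z : N => (c z).source ∩ (c z) ⁻¹' ball 0 (1 / 8)) (fun z => by
      refine ((c z).isOpen_inter_preimage isOpen_ball).mem_nhds ⟨(hc z).src, ?_⟩
      rw [mem_preimage, (hc z).zero]
      exact mem_ball_self (by norm_num))
  have hcov : ∀ y, ∃ b ∈ t, y ∈ (c b).source ∧ ‖c b y‖ < 1 / 8 := by
    intro y
    have hy : y ∈ (⊤ : Set N) := mem_univ y
    rw [← ht, mem_iUnion₂] at hy
    obtain ⟨b, hb, h3, h4⟩ := hy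
    refine ⟨b, hb, h3, ?_⟩
    rwa [mem_preimage, mem_ball_zero_iff] at h4
  -- constants of the steps
  have hsteps : ∀ G : DiffM n N r, ∃ K ρ : ℝ, 1 ≤ K ∧ 0 < ρ ∧ ∀ b ∈ t, ∀ b' ∈ t,
      ∀ y ∈ (c b).source, ‖c b y‖ < 1 / 8 → G y ∈ (c b').source → ‖c b' (G y)‖ < 1 / 8 →
        TT n N K K ρ (c b) (c b') G y := by
    intro G
    obtain ⟨K, ρ, hK, hρ, hs⟩ := unif (t ×ˢ t) (fun p K ρ => ∀ y ∈ (c p.1).source,
      ‖c p.1 y‖ < 1 / 8 → G y ∈ (c p.2).source → ‖c p.2 (G y)‖ < 1 / 8 →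
        TT n N K K ρ (c p.1) (c p.2) G y) (fun p _ => by
        obtain ⟨K, ρ, hK, hρ, hs⟩ := tt_of_step h hr G (c p.1) (c p.2) p.1 p.2 (hc p.1) (hc p.2)
        exact ⟨K, ρ, hK, hρ, fun y h3 h4 h5 h6 => hs y h3 (by linarith) h5 (by linarith)⟩)
      (fun p K K' ρ ρ' hs hK hρ y h3 h4 h5 h6 => (hs y h3 h4 h5 h6).mono hK hK hρ)
    exact ⟨K, ρ, hK, hρ, fun b hb b' hb' => hs (b, b') (Finset.mem_product.2 ⟨hb, hb'⟩)⟩
  obtain ⟨K₁, ρ₁, hK₁, hρ₁, hs₁⟩ := hsteps F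
  obtain ⟨K₂, ρ₂, hK₂, hρ₂, hs₂⟩ := hsteps F.symm
  obtain ⟨K, hKd⟩ : ∃ K : ℝ, K = max K₁ K₂ := ⟨_, rfl⟩
  obtain ⟨ρ, hρd⟩ : ∃ ρ : ℝ, ρ = min ρ₁ ρ₂ := ⟨_, rfl⟩
  have hK : 1 ≤ K := by rw [hKd]; exact le_max_of_le_left hK₁
  have hρ : 0 < ρ := by rw [hρd]; exact lt_min hρ₁ hρ₂
  have hK8 : 2 ≤ 8 * K ^ 4 := by
    have : 1 ≤ K ^ 4 := one_le_pow₀ hK
    linarith
  refine ⟨8 * K ^ 4, hK8, ?_⟩
  intro χ z hχ
  -- constants of `χ`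
  obtain ⟨k, ρ₀, hk, hρ₀, hkρ⟩ := unif t (fun b k ρ₀ => ∀ y ∈ χ.source, ‖χ y‖ ≤ 1 / 4 →
      y ∈ (c b).source → ‖c b y‖ < 1 / 8 →
        TT n N k k ρ₀ χ (c b) id y ∧ TT n N k k ρ₀ (c b) χ id y) (fun b _ => by
      obtain ⟨k₁, r₁, hk₁, hr₁, hs₁⟩ := tt_of_step h hr (Diffeomorph.refl (𝓡 n) N r) χ (c b) z b
        hχ (hc b)
      obtain ⟨k₂, r₂, hk₂, hr₂, hs₂⟩ := tt_of_step h hr (Diffeomorph.refl (𝓡 n) N r) (c b) χ b z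
        (hc b) hχ
      refine ⟨max k₁ k₂, min r₁ r₂, le_max_of_le_left hk₁, lt_min hr₁ hr₂, ?_⟩
      intro y h3 h4 h5 h6
      refine ⟨?_, ?_⟩
      · exact TT.mono (G := id) (hs₁ y h3 (by linarith) h5 (by
          change ‖c b y‖ ≤ 1 / 2
          linarith)) (le_max_left _ _) (le_max_left _ _) (min_le_left _ _)
      · exact TT.mono (G := id) (hs₂ y h5 (by linarith) h3 (by
          change ‖χ y‖ ≤ 1 / 2
          linarith)) (le_max_right _ _) (le_max_right _ _) (min_le_right _ _))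
    (fun b k k' r r' hs hk hr y h3 h4 h5 h6 => ⟨(hs y h3 h4 h5 h6).1.mono hk hk hr,
      (hs y h3 h4 h5 h6).2.mono hk hk hr⟩)
  obtain ⟨ρ', hρ'd⟩ : ∃ ρ' : ℝ, ρ' = min ρ₀ ρ := ⟨_, rfl⟩
  have hρ'0 : 0 < ρ' := by rw [hρ'd]; exact lt_min hρ₀ hρ
  have hρ'ρ : ρ' ≤ ρ := by rw [hρ'd]; exact min_le_right _ _
  have hρ'ρ₀ : ρ' ≤ ρ₀ := by rw [hρ'd]; exact min_le_left _ _
  have hk0 : 0 < k := by linarith
  have hK0 : 0 < K := by linarith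
  obtain ⟨m₀, hm₀⟩ := nums K k ρ' hK hk hρ'0
  -- the estimate for natural iterates
  have hnat : ∀ G : N → N, (∀ b ∈ t, ∀ b' ∈ t,
      ∀ y ∈ (c b).source, ‖c b y‖ < 1 / 8 → G y ∈ (c b').source → ‖c b' (G y)‖ < 1 / 8 →
        TT n N K K ρ (c b) (c b') G y) → ∀ l : ℕ, ∀ y ∈ χ.source, ‖χ y‖ ≤ 1 / 4 →
      G^[l] y ∈ χ.source → ‖χ (G^[l] y)‖ ≤ 1 / 4 →
      TT n N (k * (k * K ^ l)) (k * (k * K ^ l) ^ 2 + k * (k ^ 2 * (2 * K ^ 2) ^ l))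
        (ρ' / (k * K ^ l)) χ χ G^[l] y := by
    intro G hG l y hy hy4 hGy hGy4
    obtain ⟨b, hb, h3, h4⟩ := hcov (G^[l] y)
    have h5 := chain c t hcov G K ρ hK hG χ y k ρ' hk hρ'0 hρ'ρ
      (fun b hb h5 h6 => (hkρ b hb y hy hy4 h5 h6).1.mono le_rfl le_rfl hρ'ρ₀) l b hb h3 h4
    have h6 := (hkρ b hb (G^[l] y) hGy hGy4 h3 h4).2
    have hd : 0 < k * K ^ l := by positivity
    have h7 := h5.comp h6 hd hk0.le hk0.le (ρ := ρ' / (k * K ^ l)) (by positivity) le_rfl (by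
      rw [mul_div_cancel₀ _ hd.ne']
      exact hρ'ρ₀)
    exact h7
  have hint : ∀ m : ℕ, m₀ ≤ m → ∀ i : ℤ, |i| ≤ 2 * m → ∀ y ∈ χ.source, ‖χ y‖ ≤ 1 / 4 →
      it F i y ∈ χ.source → ‖χ (it F i y)‖ ≤ 1 / 4 → ∃ e : ℝ, (8 * K ^ 4)⁻¹ ^ m < e ∧
        TT n N ((8 * K ^ 4) ^ m) ((8 * K ^ 4) ^ m) e χ χ (it F i) y := by
    intro m hm i hi y hy hy4 hiy hiy4
    obtain ⟨l, hl | hl⟩ := Int.eq_nat_or_neg i
    · subst hl
      have hl2 : l ≤ 2 * m := by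
        rw [Nat.abs_cast] at hi
        exact_mod_cast hi
      obtain ⟨n1, n2, n3⟩ := hm₀ m hm l hl2
      rw [it_nat] at hiy hiy4 ⊢
      refine ⟨_, n3, (hnat F (fun b hb b' hb' y h3 h4 h5 h6 => (hs₁ b hb b' hb' y h3 h4 h5 h6).mono
        ?_ ?_ ?_) l y hy hy4 hiy hiy4).mono n1 n2 le_rfl⟩
      · rw [hKd]; exact le_max_left _ _
      · rw [hKd]; exact le_max_left _ _
      · rw [hρd]; exact min_le_left _ _
    · subst hl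
      have hl2 : l ≤ 2 * m := by
        rw [abs_neg, Nat.abs_cast] at hi
        exact_mod_cast hi
      obtain ⟨n1, n2, n3⟩ := hm₀ m hm l hl2
      rw [it_neg] at hiy hiy4 ⊢
      refine ⟨_, n3, (hnat F.symm (fun b hb b' hb' y h3 h4 h5 h6 =>
        (hs₂ b hb b' hb' y h3 h4 h5 h6).mono ?_ ?_ ?_) l y hy hy4 hiy hiy4).mono n1 n2 le_rfl⟩
      · rw [hKd]; exact le_max_right _ _
      · rw [hKd]; exact le_max_right _ _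
      · rw [hρd]; exact min_le_right _ _
  refine ⟨m₀, fun m hm => ⟨?_, ?_⟩⟩
  · intro i hi y hy y' hy' hy4 _ hyy hiy hiy4
    obtain ⟨e, he, hT⟩ := hint m hm i hi y hy hy4 hiy hiy4
    have he0 : 0 < e := lt_of_le_of_lt (by positivity) he
    have hy'b : χ y' ∈ ball (χ y) e := by
      rw [mem_ball_iff_norm, norm_sub_rev]
      exact lt_of_le_of_lt hyy he
    have h3 := (hT.dom _ hy'b).2
    rw [χ.left_inv hy'] at h3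
    refine ⟨h3, ?_⟩
    have h4 := hT.mv (χ y) (χ y') (mem_ball_self he0) hy'b
    simp only [Function.comp] at h4
    rwa [χ.left_inv hy, χ.left_inv hy'] at h4
  · intro i hi y hy hy8 hiy hiy4 x hx
    obtain ⟨e, he, hT⟩ := hint m hm i hi y hy (by linarith) hiy hiy4
    have he0 : 0 < e := lt_of_le_of_lt (by positivity) he
    have hx' : x ∈ ball (χ y) e := ball_subset_ball he.le hx
    exact ⟨hT.diff x hx', hT.bd x hx', hT.lip x hx' (χ y) (mem_ball_self he0)⟩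

end Pool.Agent.W509.SC
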